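import Pool.Agent.H2.VN2

namespace Pool.Agent.Results.MP_a79530_al.Drop

open Pool.Agent.H2.VN

theorem result (K : Type) [Field K] : ∃ I p : Ideal (MvPolynomial (Fin 3) K),
    IsHom I ∧ I ≠ ⊥ ∧ I ≠ ⊤ ∧ (∀ k ≥ 1, p ∈ Ass (I ^ k)) ∧ p ∈ AssInf I ∧
      vloc (I ^ 1) p = 4 ∧ vloc (I ^ 2) p = 3 :=
  ⟨Ex1.I K, _, Ex1.hom, Ex1.ne_bot, Ex1.ne_top, fun k hk => by rw [Ex1.ass k hk]; rfl,
    ⟨1, fun k hk => by rw [Ex1.ass k hk]; rfl⟩, Ex1.vloc1, Ex1.vloc2⟩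

end Pool.Agent.Results.MP_a79530_al.Drop
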